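import Mathlib

/-!
# Parameter arrays: definitions and basic facts
-/

namespace Q7.PD

open Finset

variable {K : Type*} [Field K]

/-- `(θ_0, …, θ_d)`, `(θ*_0, …, θ*_d)`, `(φ_1, …, φ_d)`, `(ϕ_1, …, ϕ_d)` is a parameter array over
`K` of diameter `d` (only the entries with these indices are used). -/
structure IsPA (d : ℕ) (θ θs φ ϕ : ℕ → K) : Prop where
  dist : ∀ i ≤ d, ∀ j ≤ d, i ≠ j → θ i ≠ θ j
  dists : ∀ i ≤ d, ∀ j ≤ d, i ≠ j → θs i ≠ θs j
  ne : ∀ i, 1 ≤ i → i ≤ d → φ i ≠ 0 ∧ ϕ i ≠ 0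
  pa3 : ∀ i, 1 ≤ i → i ≤ d → φ i =
    ϕ 1 * ∑ h ∈ range i, (θ h - θ (d - h)) / (θ 0 - θ d) + (θs i - θs 0) * (θ (i - 1) - θ d)
  pa4 : ∀ i, 1 ≤ i → i ≤ d → ϕ i =
    φ 1 * ∑ h ∈ range i, (θ h - θ (d - h)) / (θ 0 - θ d) + (θs i - θs 0) * (θ (d - i + 1) - θ 0)
  pa5 : ∃ c : K, ∀ i, 2 ≤ i → i + 1 ≤ d →
    (θ (i - 2) - θ (i + 1)) / (θ (i - 1) - θ i) = c ∧
      (θs (i - 2) - θs (i + 1)) / (θs (i - 1) - θs i) = c

/-- `ϑ_i = ∑_{h < i} (x_h - x_{d-h}) / (x_0 - x_d)`. -/
def vt (d : ℕ) (x : ℕ → K) (i : ℕ) : K := ∑ h ∈ range i, (x h - x (d - h)) / (x 0 - x d)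

/-- `x` is `β`-recurrent. -/
def Rec (β : K) (d : ℕ) (x : ℕ → K) : Prop :=
  ∀ i, i + 3 ≤ d → x i - x (i + 3) = (β + 1) * (x (i + 1) - x (i + 2))

theorem Rec.second {β : K} {d : ℕ} {x : ℕ → K} (h : Rec β d x) :
    ∀ i, i + 2 ≤ d → x i - β * x (i + 1) + x (i + 2) = x 0 - β * x 1 + x 2 := by
  intro i
  induction i with
  | zero => intro _; rfl
  | succ i ih =>
    intro hi
    have h1 := ih (by omega)
    have h2 := h i (by omega)
    rw [show i + 1 + 1 = i + 2 by ring, show i + 1 + 2 = i + 3 by ring]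
    linear_combination h1 - h2

theorem Rec.ext {β : K} {d : ℕ} {x y : ℕ → K} (hx : Rec β d x) (hy : Rec β d y)
    (h0 : x 0 = y 0) (h1 : x 1 = y 1) (h2 : x 2 = y 2) : ∀ i ≤ d, x i = y i := by
  intro i
  induction i using Nat.strong_induction_on with
  | _ i ih =>
    intro hi
    match i, ih, hi with
    | 0, _, _ => exact h0
    | 1, _, _ => exact h1
    | 2, _, _ => exact h2
    | (n + 3), ih, hi =>
      have e0 := ih n (by omega) (by omega)
      have e1 := ih (n + 1) (by omega) (by omega)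
      have e2 := ih (n + 2) (by omega) (by omega)
      have r1 := hx n hi
      have r2 := hy n hi
      rw [e0, e1, e2] at r1
      linear_combination r2 - r1

@[simp] theorem vt_zero (d : ℕ) (x : ℕ → K) : vt d x 0 = 0 := by simp [vt]

theorem vt_succ (d : ℕ) (x : ℕ → K) (i : ℕ) :
    vt d x (i + 1) = vt d x i + (x i - x (d - i)) / (x 0 - x d) := by
  rw [vt, vt, sum_range_succ]

theorem vt_one {d : ℕ} {x : ℕ → K} (h : x 0 - x d ≠ 0) : vt d x 1 = 1 := by
  rw [show (1 : ℕ) = 0 + 1 from rfl, vt_succ, vt_zero, Nat.sub_zero, div_self h, zero_add]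

theorem vt_last (d : ℕ) (x : ℕ → K) : vt d x (d + 1) = 0 := by
  rw [vt, ← sum_div, sum_sub_distrib]
  have : ∑ h ∈ range (d + 1), x (d - h) = ∑ h ∈ range (d + 1), x h := by
    have := sum_range_reflect x (d + 1)
    rw [← this]
    refine sum_congr rfl fun h hh => ?_
    rw [show d + 1 - 1 - h = d - h by omega]
  rw [this, sub_self, zero_div]

theorem vt_symm (d : ℕ) (x : ℕ → K) : ∀ i ≤ d + 1, vt d x (d + 1 - i) = vt d x i := by
  intro i
  induction i with
  | zero => intro _; rw [Nat.sub_zero, vt_last, vt_zero]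
  | succ i ih =>
    intro hi
    have h1 := ih (by omega)
    rw [show d + 1 - i = (d - i) + 1 by omega, vt_succ, show d - (d - i) = i by omega] at h1
    rw [show d + 1 - (i + 1) = d - i by omega, vt_succ, ← h1]
    rw [sub_div, sub_div]
    ring

theorem vt_rec {β : K} {d : ℕ} {x : ℕ → K} (hr : Rec β d x) (h : x 0 - x d ≠ 0) :
    ∀ i, i + 1 ≤ d → vt d x i - β * vt d x (i + 1) + vt d x (i + 2) = vt d x 2 - β := by
  intro i
  induction i with
  | zero => intro _; rw [vt_zero, vt_one h]; ring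
  | succ i ih =>
    intro hi
    have h1 := ih (by omega)
    have e1 := hr.second i (by omega)
    obtain ⟨j, hj⟩ : ∃ j, d = i + 2 + j := ⟨d - (i + 2), by omega⟩
    have e2 := hr.second j (by omega)
    have s1 := vt_succ d x i
    have s2 := vt_succ d x (i + 1)
    have s3 := vt_succ d x (i + 2)
    rw [show d - i = j + 2 by omega] at s1
    rw [show d - (i + 1) = j + 1 by omega] at s2
    rw [show d - (i + 2) = j by omega] at s3
    rw [show i + 1 + 1 = i + 2 by ring] at s2 ⊢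
    rw [show i + 2 + 1 = i + 3 by ring] at s3
    rw [show i + 1 + 2 = i + 3 by ring]
    have key : (x i - x (j + 2)) / (x 0 - x d) - β * ((x (i + 1) - x (j + 1)) / (x 0 - x d))
        + (x (i + 2) - x j) / (x 0 - x d) = 0 := by
      rw [mul_div_assoc', ← sub_div, ← add_div]
      rw [div_eq_zero_iff]
      left
      linear_combination e1 - e2
    linear_combination h1 + s1 - β * s2 + s3 + key

/-- the invariant of the recurrence -/
theorem vt_quad {β : K} {d : ℕ} {x : ℕ → K} (hr : Rec β d x) (h : x 0 - x d ≠ 0) :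
    ∀ i, i ≤ d → vt d x (i + 1) ^ 2 + vt d x i ^ 2 - β * vt d x (i + 1) * vt d x i
      - (vt d x 2 - β) * (vt d x (i + 1) + vt d x i) = 1 - (vt d x 2 - β) := by
  intro i
  induction i with
  | zero => intro _; rw [vt_zero, vt_one h]; ring
  | succ i ih =>
    intro hi
    have h1 := ih (by omega)
    have h2 := vt_rec hr h i hi
    rw [show i + 1 + 1 = i + 2 by ring]
    linear_combination h1 + (vt d x (i + 2) - vt d x i) * h2

theorem vt_prod {β : K} {d : ℕ} {x : ℕ → K} (hr : Rec β d x) (h : x 0 - x d ≠ 0)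
    (i : ℕ) (hi : i + 1 ≤ d) :
    (vt d x (i + 2) - 1) * (vt d x i - 1) = vt d x (i + 1) * (vt d x (i + 1) - vt d x 2) := by
  have h1 := vt_quad hr h i (by omega)
  have h2 := vt_rec hr h i hi
  linear_combination (vt d x i - 1) * h2 - h1

theorem rec_const (β : K) (d : ℕ) (c : K) : Rec β d (fun _ => c) := fun i _ => by ring

theorem rec_comb {β : K} {d : ℕ} {x : ℕ → K} (hr : Rec β d x) (h : x 0 - x d ≠ 0) (c a b : K) :
    Rec β d (fun j => c + a * vt d x j + b * vt d x (j + 1)) := by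
  intro i hi
  have h1 := vt_rec hr h i (by omega)
  have h2 := vt_rec hr h (i + 1) (by omega)
  have h3 := vt_rec hr h (i + 2) (by omega)
  simp only
  rw [show i + 1 + 1 = i + 2 by ring, show i + 1 + 2 = i + 3 by ring] at h2
  rw [show i + 2 + 1 = i + 3 by ring, show i + 2 + 2 = i + 4 by ring] at h3
  rw [show i + 1 + 1 = i + 2 by ring, show i + 2 + 1 = i + 3 by ring,
    show i + 3 + 1 = i + 4 by ring]
  linear_combination a * (h1 - h2) + b * (h2 - h3)

/-- if `ϑ_2 ≠ 0`, then every `β`-recurrent sequence is a combination of `1, ϑ_j, ϑ_{j+1}` -/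
theorem span {β : K} {d : ℕ} {x y : ℕ → K} (hd : 2 ≤ d) (hr : Rec β d x) (h : x 0 - x d ≠ 0)
    (h2 : vt d x 2 ≠ 0) (hy : Rec β d y) :
    ∀ j ≤ d, y j = (y 0 - (y 1 - y d) / vt d x 2) + (y (d - 1) - y 0) / vt d x 2 * vt d x j
      + (y 1 - y d) / vt d x 2 * vt d x (j + 1) := by
  have r1 := vt_rec hr h 1 (by omega)
  rw [vt_one h, show 1 + 1 = 2 from rfl, show 1 + 2 = 3 from rfl] at r1
  have hlast := vt_last d x
  have hd1 : vt d x d = 1 := by
    have := vt_symm d x 1 (by omega)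
    rw [show d + 1 - 1 = d by omega, vt_one h] at this
    exact this
  have hd2 : vt d x (d - 1) = vt d x 2 := by
    have := vt_symm d x 2 (by omega)
    rw [show d + 1 - 2 = d - 1 by omega] at this
    exact this
  -- the determinant
  have hdet : (vt d x 3 - 1) - vt d x 2 * (vt d x 2 - 1) ≠ 0 := by
    intro h0
    have hE := (rec_comb hr h (-1) (1 - vt d x 2) 1).ext (rec_const β d 0)
      (by simp only [vt_zero]; rw [show 0 + 1 = 1 from rfl, vt_one h]; ring)
      (by rw [vt_one h, show 1 + 1 = 2 from rfl]; ring)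
      (by rw [show 2 + 1 = 3 from rfl]; linear_combination h0) d le_rfl
    rw [hlast, hd1] at hE
    exact h2 (by linear_combination -hE)
  -- existence
  obtain ⟨c, a, b, h0', h1', h2'⟩ : ∃ c a b : K, y 0 = c + b ∧ y 1 = c + a + b * vt d x 2 ∧
      y 2 = c + a * vt d x 2 + b * vt d x 3 := by
    set D := (vt d x 3 - 1) - vt d x 2 * (vt d x 2 - 1) with hD
    set b := ((y 2 - y 0) - vt d x 2 * (y 1 - y 0)) / D with hb
    have hbD : b * D = (y 2 - y 0) - vt d x 2 * (y 1 - y 0) := by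
      rw [hb, div_mul_cancel₀ _ hdet]
    refine ⟨y 0 - b, y 1 - y 0 - b * (vt d x 2 - 1), b, by ring, by ring, ?_⟩
    rw [hD] at hbD
    linear_combination -hbD
  have hall := hy.ext (rec_comb hr h c a b)
    (by simp only [vt_zero]; rw [show 0 + 1 = 1 from rfl, vt_one h, h0']; ring)
    (by rw [vt_one h, show 1 + 1 = 2 from rfl, h1']; ring)
    (by rw [show 2 + 1 = 3 from rfl, h2'])
  have ed := hall d le_rfl
  rw [hlast, hd1] at ed
  have ed1 := hall (d - 1) (by omega)
  rw [hd2, show d - 1 + 1 = d by omega, hd1] at ed1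
  have hb : (y 1 - y d) / vt d x 2 = b := by
    rw [div_eq_iff h2, h1', ed]; ring
  have ha : (y (d - 1) - y 0) / vt d x 2 = a := by
    rw [div_eq_iff h2, ed1, h0']; ring
  intro j hj
  rw [hb, ha, hall j hj, h0']
  ring

end Q7.PD
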