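import Pool.Agent.Q7.PD.Basic

/-!
# Parameter arrays: parametrization when `ϑ_2 ≠ 0`
-/

namespace Q7.PD

open Finset

variable {K : Type*} [Field K]

/-- The sequences `θ, φ, ϕ` given by the scalars `c, a, b, m` (and the sequence `θ*`). -/
def SeqA (d : ℕ) (θs : ℕ → K) (c a b m : K) (θ φ ϕ : ℕ → K) : Prop :=
  (∀ j ≤ d, θ j = c + a * vt d θs j + b * vt d θs (j + 1)) ∧
  ∀ i, 1 ≤ i → i ≤ d → φ i = vt d θs i * (m + b * θs i + a * θs (i - 1)) ∧
    ϕ i = vt d θs i * (m + a * θs i + b * θs (i - 1))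

theorem IsPA.sub_ne {d : ℕ} {θ θs φ ϕ : ℕ → K} (h : IsPA d θ θs φ ϕ) (hd : 1 ≤ d) :
    θ 0 - θ d ≠ 0 := sub_ne_zero.2 (h.dist 0 (by omega) d le_rfl (by omega))

theorem IsPA.sub_nes {d : ℕ} {θ θs φ ϕ : ℕ → K} (h : IsPA d θ θs φ ϕ) (hd : 1 ≤ d) :
    θs 0 - θs d ≠ 0 := sub_ne_zero.2 (h.dists 0 (by omega) d le_rfl (by omega))

theorem IsPA.exists_rec {d : ℕ} {θ θs φ ϕ : ℕ → K} (h : IsPA d θ θs φ ϕ) :
    ∃ β, Rec β d θ ∧ Rec β d θs := by
  obtain ⟨c, hc⟩ := h.pa5
  refine ⟨c - 1, fun i hi => ?_, fun i hi => ?_⟩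
  · have := (hc (i + 2) (by omega) (by omega)).1
    rw [show i + 2 - 2 = i by omega, show i + 2 + 1 = i + 3 by ring, show i + 2 - 1 = i + 1 by omega,
      div_eq_iff (sub_ne_zero.2 (h.dist _ (by omega) _ (by omega) (by omega)))] at this
    rw [this]; ring
  · have := (hc (i + 2) (by omega) (by omega)).2
    rw [show i + 2 - 2 = i by omega, show i + 2 + 1 = i + 3 by ring, show i + 2 - 1 = i + 1 by omega,
      div_eq_iff (sub_ne_zero.2 (h.dists _ (by omega) _ (by omega) (by omega)))] at this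
    rw [this]; ring

/-- the value of `β` is determined by `θ*` when `d ≥ 3` -/
theorem IsPA.rec_of {d : ℕ} {θ θs φ ϕ : ℕ → K} (h : IsPA d θ θs φ ϕ) (hd : 3 ≤ d) {β : K}
    (hr : Rec β d θs) : Rec β d θ := by
  obtain ⟨β', h1, h2⟩ := h.exists_rec
  have e1 := hr 0 (by omega)
  have e2 := h2 0 (by omega)
  have hne : θs (0 + 1) - θs (0 + 2) ≠ 0 :=
    sub_ne_zero.2 (h.dists _ (by omega) _ (by omega) (by omega))
  have : β = β' := by
    have h3 : (β - β') * (θs (0 + 1) - θs (0 + 2)) = 0 := by linear_combination e2 - e1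
    rcases mul_eq_zero.1 h3 with h4 | h4
    · exact sub_eq_zero.1 h4
    · exact absurd h4 hne
  rw [this]; exact h1

theorem idI {β : K} {d : ℕ} {x : ℕ → K} (hd : 2 ≤ d) (hr : Rec β d x) (h : x 0 - x d ≠ 0)
    (h2 : vt d x 2 ≠ 0) (k : ℕ) (hk : k + 1 ≤ d) :
    (x (k + 1) - x 0) * (vt d x k - 1) = vt d x (k + 1) * (x k - x 1) := by
  have hs := span hd hr h h2 hr
  set a := (x (d - 1) - x 0) / vt d x 2
  set b := (x 1 - x d) / vt d x 2
  have e0 := hs 0 (by omega)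
  have e1 := hs 1 (by omega)
  have ek := hs k (by omega)
  have ek1 := hs (k + 1) hk
  rw [vt_zero, show 0 + 1 = 1 from rfl, vt_one h] at e0
  rw [vt_one h, show 1 + 1 = 2 from rfl] at e1
  rw [show k + 1 + 1 = k + 2 by ring] at ek1
  have hp := vt_prod hr h k hk
  have t1 : x (k + 1) - x 0 = a * vt d x (k + 1) + b * (vt d x (k + 2) - 1) := by
    linear_combination ek1 - e0
  have t2 : x k - x 1 = a * (vt d x k - 1) + b * (vt d x (k + 1) - vt d x 2) := by
    linear_combination ek - e1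
  rw [t1, t2]
  linear_combination b * hp

theorem vt_comb {d : ℕ} {x : ℕ → K} (h : x 0 - x d ≠ 0) {c a b : K} {θ : ℕ → K}
    (hθ : ∀ j ≤ d, θ j = c + a * vt d x j + b * vt d x (j + 1)) (hd : 1 ≤ d)
    (hne : θ 0 - θ d ≠ 0) :
    θ 0 - θ d = b - a ∧ ∀ i ≤ d + 1, vt d θ i = vt d x i := by
  have hlast := vt_last d x
  have hd1 : vt d x d = 1 := by
    have := vt_symm d x 1 (by omega)
    rw [show d + 1 - 1 = d by omega, vt_one h] at this
    exact this
  have e0 := hθ 0 (by omega)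
  have ed := hθ d le_rfl
  rw [vt_zero, show 0 + 1 = 1 from rfl, vt_one h] at e0
  rw [hlast, hd1] at ed
  have hba : θ 0 - θ d = b - a := by rw [e0, ed]; ring
  refine ⟨hba, fun i => ?_⟩
  induction i with
  | zero => intro _; rw [vt_zero, vt_zero]
  | succ i ih =>
    intro hi
    have h1 := ih (by omega)
    have s1 := vt_symm d x i (by omega)
    have s2 := vt_symm d x (i + 1) (by omega)
    rw [show d + 1 - (i + 1) = d - i by omega] at s2
    rw [show d + 1 - i = d - i + 1 by omega] at s1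
    have ei := hθ i (by omega)
    have edi := hθ (d - i) (by omega)
    rw [s1, s2] at edi
    have : (θ i - θ (d - i)) / (θ 0 - θ d) = vt d x (i + 1) - vt d x i := by
      rw [div_eq_iff hne, hba, ei, edi]
      ring
    rw [vt_succ, h1, this]
    ring

/-- every parameter array with the given `θ*` is given by four scalars -/
theorem IsPA.seqA {β : K} {d : ℕ} {θ θs φ ϕ : ℕ → K} (h : IsPA d θ θs φ ϕ) (hd : 2 ≤ d)
    (hr : Rec β d θs) (hr' : Rec β d θ) (h2 : vt d θs 2 ≠ 0) :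
    SeqA d θs (θ 0 - (θ 1 - θ d) / vt d θs 2) ((θ (d - 1) - θ 0) / vt d θs 2)
      ((θ 1 - θ d) / vt d θs 2)
      (ϕ 1 - (θ (d - 1) - θ 0) / vt d θs 2 * θs 1 - (θ 1 - θ d) / vt d θs 2 * θs 0) θ φ ϕ := by
  have hD := h.sub_nes (by omega)
  have hθ := span hd hr hD h2 hr'
  set a := (θ (d - 1) - θ 0) / vt d θs 2
  set b := (θ 1 - θ d) / vt d θs 2
  refine ⟨hθ, fun i hi hid => ?_⟩
  obtain ⟨hba, hv⟩ := vt_comb hD hθ (by omega) (h.sub_ne (by omega))
  obtain ⟨k, rfl⟩ : ∃ k, i = k + 1 := ⟨i - 1, by omega⟩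
  have hI := idI hd hr hD h2 k hid
  have p3 := h.pa3 (k + 1) hi hid
  have p4 := h.pa4 (k + 1) hi hid
  have p3' := h.pa3 1 le_rfl (by omega)
  change φ (k + 1) = ϕ 1 * vt d θ (k + 1) + _ at p3
  change ϕ (k + 1) = φ 1 * vt d θ (k + 1) + _ at p4
  change φ 1 = ϕ 1 * vt d θ 1 + _ at p3'
  rw [hv _ (by omega)] at p3 p4 p3'
  rw [vt_one hD, show 1 - 1 = 0 from rfl, hba] at p3'
  rw [show k + 1 - 1 = k by omega] at p3 ⊢
  rw [show d - (k + 1) + 1 = d - k by omega] at p4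
  have e0 := hθ 0 (by omega)
  have ed := hθ d le_rfl
  have hlast := vt_last d θs
  have hd1 : vt d θs d = 1 := by
    have := vt_symm d θs 1 (by omega)
    rw [show d + 1 - 1 = d by omega, vt_one hD] at this
    exact this
  rw [vt_zero, show 0 + 1 = 1 from rfl, vt_one hD] at e0
  rw [hlast, hd1] at ed
  have ek := hθ k (by omega)
  have edk := hθ (d - k) (by omega)
  have s1 := vt_symm d θs k (by omega)
  have s2 := vt_symm d θs (k + 1) (by omega)
  rw [show d + 1 - (k + 1) = d - k by omega] at s2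
  rw [show d + 1 - k = d - k + 1 by omega] at s1
  rw [s1, s2] at edk
  constructor
  · rw [p3]
    linear_combination (θs (k + 1) - θs 0) * (ek - ed) + a * hI
  · rw [p4, p3']
    linear_combination (θs (k + 1) - θs 0) * (edk - e0) + b * hI

/-- conversely, four scalars give a parameter array, if the entries are distinct and nonzero -/
theorem SeqA.isPA {β : K} {d : ℕ} {θ θs φ ϕ : ℕ → K} {c a b m : K} (h : SeqA d θs c a b m θ φ ϕ)
    (hd : 2 ≤ d) (hr : Rec β d θs) (h2 : vt d θs 2 ≠ 0)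
    (hds : ∀ i ≤ d, ∀ j ≤ d, i ≠ j → θs i ≠ θs j) (hdt : ∀ i ≤ d, ∀ j ≤ d, i ≠ j → θ i ≠ θ j)
    (hne : ∀ i, 1 ≤ i → i ≤ d → φ i ≠ 0 ∧ ϕ i ≠ 0) : IsPA d θ θs φ ϕ := by
  have hD : θs 0 - θs d ≠ 0 := sub_ne_zero.2 (hds 0 (by omega) d le_rfl (by omega))
  have hD' : θ 0 - θ d ≠ 0 := sub_ne_zero.2 (hdt 0 (by omega) d le_rfl (by omega))
  obtain ⟨hθ, hp⟩ := h
  obtain ⟨hba, hv⟩ := vt_comb hD hθ (by omega) hD'
  have e0 := hθ 0 (by omega)
  have ed := hθ d le_rfl
  have hlast := vt_last d θs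
  have hd1 : vt d θs d = 1 := by
    have := vt_symm d θs 1 (by omega)
    rw [show d + 1 - 1 = d by omega, vt_one hD] at this
    exact this
  rw [vt_zero, show 0 + 1 = 1 from rfl, vt_one hD] at e0
  rw [hlast, hd1] at ed
  have hp1 := hp 1 le_rfl (by omega)
  rw [vt_one hD, show 1 - 1 = 0 from rfl] at hp1
  have main : ∀ i, 1 ≤ i → i ≤ d → φ i = ϕ 1 * vt d θ i + (θs i - θs 0) * (θ (i - 1) - θ d) ∧
      ϕ i = φ 1 * vt d θ i + (θs i - θs 0) * (θ (d - i + 1) - θ 0) := by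
    intro i hi hid
    obtain ⟨k, rfl⟩ : ∃ k, i = k + 1 := ⟨i - 1, by omega⟩
    have hI := idI hd hr hD h2 k hid
    obtain ⟨q1, q2⟩ := hp (k + 1) hi hid
    rw [hv _ (by omega), show d - (k + 1) + 1 = d - k by omega]
    rw [show k + 1 - 1 = k by omega] at q1 q2 ⊢
    have ek := hθ k (by omega)
    have edk := hθ (d - k) (by omega)
    have s1 := vt_symm d θs k (by omega)
    have s2 := vt_symm d θs (k + 1) (by omega)
    rw [show d + 1 - (k + 1) = d - k by omega] at s2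
    rw [show d + 1 - k = d - k + 1 by omega] at s1
    rw [s1, s2] at edk
    constructor
    · rw [q1, hp1.2]
      linear_combination -(θs (k + 1) - θs 0) * (ek - ed) - a * hI
    · rw [q2, hp1.1]
      linear_combination -(θs (k + 1) - θs 0) * (edk - e0) - b * hI
  refine ⟨hdt, hds, hne, fun i hi hid => (main i hi hid).1, fun i hi hid => (main i hi hid).2, ?_⟩
  refine ⟨β + 1, fun i hi hid => ?_⟩
  obtain ⟨k, rfl⟩ : ∃ k, i = k + 2 := ⟨i - 2, by omega⟩
  rw [show k + 2 - 2 = k by omega, show k + 2 + 1 = k + 3 by ring,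
    show k + 2 - 1 = k + 1 by omega,
    div_eq_iff (sub_ne_zero.2 (hdt _ (by omega) _ (by omega) (by omega))),
    div_eq_iff (sub_ne_zero.2 (hds _ (by omega) _ (by omega) (by omega)))]
  refine ⟨?_, hr k (by omega)⟩
  have := rec_comb hr hD c a b k (by omega)
  simp only at this
  rw [hθ k (by omega), hθ (k + 1) (by omega), hθ (k + 2) (by omega), hθ (k + 3) (by omega)]
  exact this

end Q7.PD
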