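import Pool.Agent.Q7.PD.EqA

/-!
# Parameter arrays: the case `ϑ_2 = 0`
-/

namespace Q7.PD

open Finset

variable {K : Type*} [Field K]

/-- auxiliary sequence -/
def U (β : K) : ℕ → K
  | 0 => 0
  | 1 => 0
  | (n + 2) => β * U β (n + 1) - U β n + 1

theorem U_rec (β : K) (n : ℕ) : U β (n + 2) = β * U β (n + 1) - U β n + 1 := rfl

theorem w_eq {β : K} {d : ℕ} {x : ℕ → K} (hr : Rec β d x) (h : x 0 - x d ≠ 0)
    (h2 : vt d x 2 = 0) : ∀ j ≤ d, vt d x j + vt d x (j + 1) - 1 = -(β + 2) * U β j := by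
  intro j
  induction j using Nat.strong_induction_on with
  | _ j ih =>
    intro hj
    match j, ih, hj with
    | 0, _, _ => rw [vt_zero, show 0 + 1 = 1 from rfl, vt_one h, show U β 0 = 0 from rfl]; ring
    | 1, _, _ =>
      rw [vt_one h, show 1 + 1 = 2 from rfl, h2, show U β 1 = 0 from rfl]; ring
    | (n + 2), ih, hj =>
      have e0 := ih n (by omega) (by omega)
      have e1 := ih (n + 1) (by omega) (by omega)
      have r0 := vt_rec hr h n (by omega)
      have r1 := vt_rec hr h (n + 1) (by omega)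
      rw [h2] at r0 r1
      rw [show n + 1 + 1 = n + 2 by ring] at e1 r1
      rw [show n + 1 + 2 = n + 3 by ring] at r1
      rw [show n + 2 + 1 = n + 3 by ring, U_rec]
      linear_combination r0 + r1 - e0 + β * e1

theorem beta_eq {β : K} {d : ℕ} {x : ℕ → K} (hd : 3 ≤ d) (hr : Rec β d x)
    (hds : ∀ i ≤ d, ∀ j ≤ d, i ≠ j → x i ≠ x j) (h2 : vt d x 2 = 0) : β = -2 := by
  have h : x 0 - x d ≠ 0 := sub_ne_zero.2 (hds 0 (by omega) d le_rfl (by omega))
  by_contra hβ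
  have hβ' : -(β + 2) ≠ 0 := fun h0 => hβ (by linear_combination -h0)
  have hlast := vt_last d x
  have hd1 : vt d x d = 1 := by
    have := vt_symm d x 1 (by omega)
    rw [show d + 1 - 1 = d by omega, vt_one h] at this
    exact this
  have hd2 : vt d x (d - 1) = 0 := by
    have := vt_symm d x 2 (by omega)
    rw [show d + 1 - 2 = d - 1 by omega, h2] at this
    exact this
  have u1 : U β d = 0 := by
    have := w_eq hr h h2 d le_rfl
    rw [hlast, hd1] at this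
    refine (mul_eq_zero.1 (?_ : -(β + 2) * U β d = 0)).resolve_left hβ'
    linear_combination -this
  have u0 : U β (d - 1) = 0 := by
    have := w_eq hr h h2 (d - 1) (by omega)
    rw [show d - 1 + 1 = d by omega, hd2, hd1] at this
    refine (mul_eq_zero.1 (?_ : -(β + 2) * U β (d - 1) = 0)).resolve_left hβ'
    linear_combination -this
  have u2 : U β (d + 1) = 1 := by
    obtain ⟨n, hn⟩ : ∃ n, d = n + 1 := ⟨d - 1, by omega⟩
    subst hn
    rw [show n + 1 + 1 = n + 2 by ring, U_rec, u1]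
    rw [show n + 1 - 1 = n by omega] at u0
    rw [u0]; ring
  have hU : ∀ p q r : K, Rec β d (fun j => p * U β j + q * U β (j + 1) + r * U β (j + 2)) := by
    intro p q r i _
    have e2 := U_rec β i
    have e3 := U_rec β (i + 1)
    have e4 := U_rec β (i + 2)
    have e5 := U_rec β (i + 3)
    rw [show i + 1 + 2 = i + 3 by ring, show i + 1 + 1 = i + 2 by ring] at e3
    rw [show i + 2 + 2 = i + 4 by ring, show i + 2 + 1 = i + 3 by ring] at e4
    rw [show i + 3 + 2 = i + 5 by ring, show i + 3 + 1 = i + 4 by ring] at e5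
    beta_reduce
    rw [show i + 1 + 1 = i + 2 by ring, show i + 1 + 2 = i + 3 by ring,
      show i + 2 + 1 = i + 3 by ring, show i + 2 + 2 = i + 4 by ring,
      show i + 3 + 1 = i + 4 by ring, show i + 3 + 2 = i + 5 by ring]
    linear_combination p * (e2 - e3) + q * (e3 - e4) + r * (e4 - e5)
  have U2 : U β 2 = 1 := by rw [U_rec β 0]; change β * 0 - 0 + 1 = 1; ring
  have U3 : U β 3 = β + 1 := by rw [U_rec β 1, U2]; change β * 1 - 0 + 1 = _; ring
  set r := x 0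
  set q := x 1 - r * (β + 1) with hq
  set p := x 2 - q * U β 3 - r * U β 4 with hp
  have hall := hr.ext (hU p q r)
    (by
      simp only [zero_add]
      rw [U2]
      change x 0 = p * 0 + q * 0 + r * 1
      ring)
    (by
      rw [show 1 + 1 = 2 from rfl, show 1 + 2 = 3 from rfl, U2, U3]
      change x 1 = p * 0 + q * 1 + r * (β + 1)
      rw [hq]; ring)
    (by
      rw [show 2 + 1 = 3 from rfl, show 2 + 2 = 4 from rfl, U2, hp]; ring)
    (d - 1) (by omega)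
  rw [show d - 1 + 1 = d by omega, show d - 1 + 2 = d + 1 by omega, u0, u1, u2] at hall
  exact hds (d - 1) (by omega) 0 (by omega) (by omega) (by rw [hall]; ring)

theorem rec_neg_two {d : ℕ} {x : ℕ → K} (hr : Rec (-2) d x) : ∀ j,
    (2 * j ≤ d → x (2 * j) = x 0 + j * (x 2 - x 0)) ∧
    (2 * j + 1 ≤ d → x (2 * j + 1) = x 1 - j * (x 2 - x 0)) := by
  intro j
  induction j with
  | zero => simp
  | succ j ih =>
    have hs : ∀ i, i + 2 ≤ d → x (i + 2) - x i = (-1) ^ i * (x 2 - x 0) := by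
      intro i
      induction i with
      | zero => intro _; simp
      | succ i ih2 =>
        intro hi
        have h1 := ih2 (by omega)
        have h2 := hr i (by omega)
        rw [show i + 1 + 2 = i + 3 by ring, pow_succ]
        linear_combination -h2 - h1
    refine ⟨fun h => ?_, fun h => ?_⟩
    · have h1 := ih.1 (by omega)
      have h2 := hs (2 * j) (by omega)
      rw [pow_mul, neg_one_sq, one_pow] at h2
      rw [show 2 * (j + 1) = 2 * j + 2 by ring]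
      push_cast
      linear_combination h1 + h2
    · have h1 := ih.2 (by omega)
      have h2 := hs (2 * j + 1) (by omega)
      rw [pow_succ, pow_mul, neg_one_sq, one_pow] at h2
      rw [show 2 * (j + 1) + 1 = 2 * j + 1 + 2 by ring]
      push_cast
      linear_combination h1 + h2

theorem vt_neg_two {e : ℕ} {x : ℕ → K} (hr : Rec (-2) (2 * e + 1) x)
    (h : x 0 - x (2 * e + 1) ≠ 0) : ∀ j ≤ e, vt (2 * e + 1) x (2 * j) = 0 ∧
      vt (2 * e + 1) x (2 * j + 1) = 1 := by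
  have hx := rec_neg_two hr
  have hxe := (hx e).2 le_rfl
  intro j
  induction j with
  | zero => intro _; exact ⟨by rw [Nat.mul_zero, vt_zero], by rw [Nat.mul_zero, zero_add, vt_one h]⟩
  | succ j ih =>
    intro hj
    have h0 := (ih (by omega)).2
    have e0 : vt (2 * e + 1) x (2 * (j + 1)) = 0 := by
      rw [show 2 * (j + 1) = 2 * j + 1 + 1 by ring, vt_succ, h0]
      have h1 := (hx j).2 (by omega)
      have h2 := (hx (e - j)).1 (by omega)
      rw [show 2 * (e - j) = 2 * e + 1 - (2 * j + 1) by omega] at h2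
      rw [Nat.cast_sub (by omega)] at h2
      rw [show (x (2 * j + 1) - x (2 * e + 1 - (2 * j + 1))) = -(x 0 - x (2 * e + 1)) by
        rw [h1, h2, hxe]; ring]
      rw [neg_div, div_self h]
      ring
    refine ⟨e0, ?_⟩
    rw [vt_succ, e0]
    have h1 := (hx (j + 1)).1 (by omega)
    have h2 := (hx (e - (j + 1))).2 (by omega)
    rw [show 2 * (e - (j + 1)) + 1 = 2 * e + 1 - 2 * (j + 1) by omega] at h2
    rw [Nat.cast_sub (by omega)] at h2
    rw [show (x (2 * (j + 1)) - x (2 * e + 1 - 2 * (j + 1))) = (x 0 - x (2 * e + 1)) by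
      rw [h1, h2, hxe]; ring]
    rw [div_self h]
    ring

/-- `ϑ_2 = 0` forces `β = -2` and `d` odd -/
theorem odd_of {β : K} {d : ℕ} {x : ℕ → K} (hd : 3 ≤ d) (hr : Rec β d x)
    (hds : ∀ i ≤ d, ∀ j ≤ d, i ≠ j → x i ≠ x j) (h2 : vt d x 2 = 0) : ∃ e, 1 ≤ e ∧ d = 2 * e + 1 := by
  have hβ := beta_eq hd hr hds h2
  have h : x 0 - x d ≠ 0 := sub_ne_zero.2 (hds 0 (by omega) d le_rfl (by omega))
  have hw := w_eq hr h h2
  have hj : ∀ j, (2 * j ≤ d + 1 → vt d x (2 * j) = 0) := by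
    intro j
    induction j with
    | zero => intro _; rw [Nat.mul_zero, vt_zero]
    | succ j ih =>
      intro h'
      have h0 := ih (by omega)
      have w1 := hw (2 * j) (by omega)
      have w2 := hw (2 * j + 1) (by omega)
      rw [hβ] at w1 w2
      rw [show 2 * (j + 1) = 2 * j + 1 + 1 by ring]
      linear_combination w2 - w1 + h0
  have hd1 : vt d x d = 1 := by
    have := vt_symm d x 1 (by omega)
    rw [show d + 1 - 1 = d by omega, vt_one h] at this
    exact this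
  rcases Nat.even_or_odd' d with ⟨k, hk | hk⟩
  · exfalso
    have := hj k (by omega)
    rw [← hk, hd1] at this
    exact one_ne_zero this
  · exact ⟨k, by omega, hk⟩

/-- The sequences `θ, φ, ϕ` (of diameter `2e + 1`) given by the scalars `c, g, X, Y`. -/
def SeqB (e : ℕ) (θs : ℕ → K) (c g X Y : K) (θ φ ϕ : ℕ → K) : Prop :=
  (∀ j ≤ e, θ (2 * j) = c + j * g ∧
    θ (2 * j + 1) = c - (Y - X) / (θs 1 - θs 0) + (e - j) * g) ∧
  (∀ j ≤ e,
    φ (2 * j + 1) = Y + j * (θs 1 - θs 0) * g - j ^ 2 * (g * (θs 2 - θs 0))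
      - j * (θs 2 - θs 0) * ((Y - X) / (θs 1 - θs 0)) ∧
    ϕ (2 * j + 1) = X + j * (θs 1 - θs 0) * g - j ^ 2 * (g * (θs 2 - θs 0))
      + j * (θs 2 - θs 0) * ((Y - X) / (θs 1 - θs 0))) ∧
  ∀ j, 1 ≤ j → j ≤ e → φ (2 * j) = j * (e - j + 1) * (g * (θs 2 - θs 0)) ∧
    ϕ (2 * j) = j * (e - j + 1) * (g * (θs 2 - θs 0))

theorem IsPA.seqB {e : ℕ} {θ θs φ ϕ : ℕ → K} (he : 1 ≤ e) (h : IsPA (2 * e + 1) θ θs φ ϕ)
    (hr : Rec (-2) (2 * e + 1) θs) (hr' : Rec (-2) (2 * e + 1) θ) :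
    SeqB e θs (θ 0) (θ 2 - θ 0) (ϕ 1) (φ 1) θ φ ϕ := by
  have hD := h.sub_ne (by omega)
  have n1 : θs 1 - θs 0 ≠ 0 :=
    sub_ne_zero.2 (h.dists 1 (by omega) 0 (by omega) (by omega))
  have hv := vt_neg_two hr' hD
  have hx := rec_neg_two hr'
  have hxs := rec_neg_two hr
  have hxe := (hx e).2 le_rfl
  have p31 := h.pa3 1 le_rfl (by omega)
  change φ 1 = ϕ 1 * vt (2 * e + 1) θ 1 + _ at p31
  rw [vt_one hD, show 1 - 1 = 0 from rfl] at p31
  have hκ : (φ 1 - ϕ 1) / (θs 1 - θs 0) = θ 0 - θ (2 * e + 1) := by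
    rw [div_eq_iff n1, p31]; ring
  refine ⟨fun j hj => ⟨(hx j).1 (by omega), ?_⟩, fun j hj => ?_, fun j hj1 hj => ?_⟩
  · rw [hκ, (hx j).2 (by omega), hxe]; ring
  · rw [hκ]
    have p3 := h.pa3 (2 * j + 1) (by omega) (by omega)
    have p4 := h.pa4 (2 * j + 1) (by omega) (by omega)
    change φ (2 * j + 1) = ϕ 1 * vt (2 * e + 1) θ (2 * j + 1) + _ at p3
    change ϕ (2 * j + 1) = φ 1 * vt (2 * e + 1) θ (2 * j + 1) + _ at p4
    rw [(hv j hj).2, show 2 * j + 1 - 1 = 2 * j by omega] at p3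
    rw [(hv j hj).2, show 2 * e + 1 - (2 * j + 1) + 1 = 2 * (e - j) + 1 by omega] at p4
    have x1 := (hx j).1 (by omega)
    have x2 := (hx (e - j)).2 (by omega)
    rw [Nat.cast_sub hj] at x2
    have y1 := (hxs j).2 (by omega)
    rw [x1, y1] at p3
    rw [x2, y1] at p4
    constructor
    · rw [p3]
      rw [p31, hxe]
      ring
    · rw [p4, p31, hxe]
      ring
  · have p3 := h.pa3 (2 * j) (by omega) (by omega)
    have p4 := h.pa4 (2 * j) (by omega) (by omega)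
    change φ (2 * j) = ϕ 1 * vt (2 * e + 1) θ (2 * j) + _ at p3
    change ϕ (2 * j) = φ 1 * vt (2 * e + 1) θ (2 * j) + _ at p4
    rw [(hv j hj).1, show 2 * j - 1 = 2 * (j - 1) + 1 by omega] at p3
    rw [(hv j hj).1, show 2 * e + 1 - 2 * j + 1 = 2 * (e - j + 1) by omega] at p4
    have x1 := (hx (j - 1)).2 (by omega)
    have x2 := (hx (e - j + 1)).1 (by omega)
    rw [Nat.cast_sub hj1] at x1
    push_cast [Nat.cast_sub hj] at x1 x2
    have y1 := (hxs j).1 (by omega)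
    constructor
    · rw [p3, x1, y1, hxe]
      ring
    · rw [p4, x2, y1]
      ring

theorem SeqB.isPA {e : ℕ} {θ θs φ ϕ : ℕ → K} {c g X Y : K} (he : 1 ≤ e)
    (h : SeqB e θs c g X Y θ φ ϕ) (hr : Rec (-2) (2 * e + 1) θs)
    (hds : ∀ i ≤ 2 * e + 1, ∀ j ≤ 2 * e + 1, i ≠ j → θs i ≠ θs j)
    (hdt : ∀ i ≤ 2 * e + 1, ∀ j ≤ 2 * e + 1, i ≠ j → θ i ≠ θ j)
    (hne : ∀ i, 1 ≤ i → i ≤ 2 * e + 1 → φ i ≠ 0 ∧ ϕ i ≠ 0) : IsPA (2 * e + 1) θ θs φ ϕ := by
  have hD : θ 0 - θ (2 * e + 1) ≠ 0 :=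
    sub_ne_zero.2 (hdt 0 (by omega) _ le_rfl (by omega))
  have n1 : θs 1 - θs 0 ≠ 0 := sub_ne_zero.2 (hds 1 (by omega) 0 (by omega) (by omega))
  obtain ⟨hθ, hodd, heven⟩ := h
  have hr' : Rec (-2) (2 * e + 1) θ := by
    intro i hi
    rcases Nat.even_or_odd' i with ⟨j, rfl | rfl⟩
    · have e0 := (hθ j (by omega)).1
      have e1 := (hθ j (by omega)).2
      have e2 := (hθ (j + 1) (by omega)).1
      have e3 := (hθ (j + 1) (by omega)).2
      rw [show 2 * (j + 1) = 2 * j + 2 by ring] at e2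
      rw [show 2 * (j + 1) + 1 = 2 * j + 3 by ring] at e3
      push_cast at e2 e3
      rw [e0, e1, e2, e3]
      ring
    · have e0 := (hθ j (by omega)).2
      have e1 := (hθ (j + 1) (by omega)).1
      have e2 := (hθ (j + 1) (by omega)).2
      have e3 := (hθ (j + 2) (by omega)).1
      rw [show 2 * (j + 1) = 2 * j + 1 + 1 by ring] at e1
      rw [show 2 * (j + 1) + 1 = 2 * j + 1 + 2 by ring] at e2
      rw [show 2 * (j + 2) = 2 * j + 1 + 3 by ring] at e3
      push_cast at e1 e2 e3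
      rw [e0, e1, e2, e3]
      ring
  have hv := vt_neg_two hr' hD
  have hxs := rec_neg_two hr
  have e0 := (hθ 0 (by omega)).1
  have ed := (hθ e le_rfl).2
  rw [Nat.mul_zero] at e0
  push_cast at e0
  have o0 := hodd 0 (by omega)
  rw [Nat.mul_zero, zero_add] at o0
  push_cast at o0
  have hφ1 : φ 1 = Y := by rw [o0.1]; ring
  have hϕ1 : ϕ 1 = X := by rw [o0.2]; ring
  set κ := (Y - X) / (θs 1 - θs 0) with hκ
  have hκ' : Y = X + κ * (θs 1 - θs 0) := by
    rw [hκ, div_mul_cancel₀ _ n1]; ring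
  have main : ∀ i, 1 ≤ i → i ≤ 2 * e + 1 →
      φ i = ϕ 1 * vt (2 * e + 1) θ i + (θs i - θs 0) * (θ (i - 1) - θ (2 * e + 1)) ∧
      ϕ i = φ 1 * vt (2 * e + 1) θ i + (θs i - θs 0) * (θ (2 * e + 1 - i + 1) - θ 0) := by
    intro i hi hid
    rcases Nat.even_or_odd' i with ⟨j, rfl | rfl⟩
    · rw [(hv j (by omega)).1, show 2 * j - 1 = 2 * (j - 1) + 1 by omega,
        show 2 * e + 1 - 2 * j + 1 = 2 * (e - j + 1) by omega, (heven j (by omega) (by omega)).1,
        (heven j (by omega) (by omega)).2, (hxs j).1 (by omega), ed, e0,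
        (hθ (j - 1) (by omega)).2, (hθ (e - j + 1) (by omega)).1,
        Nat.cast_sub (show 1 ≤ j by omega)]
      push_cast [Nat.cast_sub (show j ≤ e by omega)]
      constructor
      · ring
      · ring
    · rw [(hv j (by omega)).2, show 2 * j + 1 - 1 = 2 * j by omega,
        show 2 * e + 1 - (2 * j + 1) + 1 = 2 * (e - j) + 1 by omega, (hodd j (by omega)).1,
        (hodd j (by omega)).2, (hxs j).2 (by omega), ed, e0,
        (hθ j (by omega)).1, (hθ (e - j) (by omega)).2, Nat.cast_sub (show j ≤ e by omega),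
        hφ1, hϕ1]
      constructor
      · rw [hκ']; ring
      · rw [hκ']; ring
  refine ⟨hdt, hds, hne, fun i hi hid => (main i hi hid).1, fun i hi hid => (main i hi hid).2, ?_⟩
  refine ⟨-2 + 1, fun i hi hid => ?_⟩
  obtain ⟨k, rfl⟩ : ∃ k, i = k + 2 := ⟨i - 2, by omega⟩
  rw [show k + 2 - 2 = k by omega, show k + 2 + 1 = k + 3 by ring,
    show k + 2 - 1 = k + 1 by omega,
    div_eq_iff (sub_ne_zero.2 (hdt _ (by omega) _ (by omega) (by omega))),
    div_eq_iff (sub_ne_zero.2 (hds _ (by omega) _ (by omega) (by omega)))]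
  exact ⟨hr' k (by omega), hr k (by omega)⟩

/-- the equations in the case `ϑ_2 = 0` -/
theorem prodB_iff {e : ℕ} {θ θs φ ϕ θ' φ' ϕ' : ℕ → K} {c g X Y c' g' X' Y' : K} (he : 1 ≤ e)
    (h : SeqB e θs c g X Y θ φ ϕ) (h' : SeqB e θs c' g' X' Y' θ' φ' ϕ')
    (hds : ∀ i ≤ 2 * e + 1, ∀ j ≤ 2 * e + 1, i ≠ j → θs i ≠ θs j)
    (hne : ∀ i, 1 ≤ i → i ≤ 2 * e + 1 → φ i ≠ 0 ∧ ϕ i ≠ 0) :
    (∀ i, 1 ≤ i → i ≤ 2 * e + 1 → φ' i * ϕ' i = φ i * ϕ i) ↔
    g' ^ 2 = g ^ 2 ∧ X' * Y' = X * Y ∧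
      g' * (X' + Y') + (θs 2 - θs 0) * ((Y' - X') / (θs 1 - θs 0)) ^ 2
        = g * (X + Y) + (θs 2 - θs 0) * ((Y - X) / (θs 1 - θs 0)) ^ 2 := by
  have n1 : θs 1 - θs 0 ≠ 0 := sub_ne_zero.2 (hds 1 (by omega) 0 (by omega) (by omega))
  have n2 : θs 2 - θs 0 ≠ 0 := sub_ne_zero.2 (hds 2 (by omega) 0 (by omega) (by omega))
  have n3 : θs 1 - θs 2 ≠ 0 := sub_ne_zero.2 (hds 1 (by omega) 2 (by omega) (by omega))
  obtain ⟨-, ho, hev⟩ := h
  obtain ⟨-, ho', hev'⟩ := h'
  set κ := (Y - X) / (θs 1 - θs 0) with hκ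
  set κ' := (Y' - X') / (θs 1 - θs 0) with hκ'
  have hk : Y - X = κ * (θs 1 - θs 0) := by rw [hκ, div_mul_cancel₀ _ n1]
  have hk' : Y' - X' = κ' * (θs 1 - θs 0) := by rw [hκ', div_mul_cancel₀ _ n1]
  -- the odd products
  have podd : ∀ j ≤ e, φ (2 * j + 1) * ϕ (2 * j + 1) = X * Y
      + j * (θs 1 - θs 0 - j * (θs 2 - θs 0)) * (g * (X + Y) + (θs 2 - θs 0) * κ ^ 2)
      + (j * (θs 1 - θs 0 - j * (θs 2 - θs 0))) ^ 2 * g ^ 2 := by
    intro j hj
    rw [(ho j hj).1, (ho j hj).2]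
    linear_combination ((j : K) * (θs 2 - θs 0) * κ) * hk
  have podd' : ∀ j ≤ e, φ' (2 * j + 1) * ϕ' (2 * j + 1) = X' * Y'
      + j * (θs 1 - θs 0 - j * (θs 2 - θs 0)) * (g' * (X' + Y') + (θs 2 - θs 0) * κ' ^ 2)
      + (j * (θs 1 - θs 0 - j * (θs 2 - θs 0))) ^ 2 * g' ^ 2 := by
    intro j hj
    rw [(ho' j hj).1, (ho' j hj).2]
    linear_combination ((j : K) * (θs 2 - θs 0) * κ') * hk'
  constructor
  · intro H
    have h2 := H 2 (by omega) (by omega)
    have q1 := hev 1 le_rfl he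
    have q1' := hev' 1 le_rfl he
    rw [show 2 * 1 = 2 from rfl] at q1 q1'
    push_cast at q1 q1'
    have hn := (hne 2 (by omega) (by omega)).1
    rw [q1.1] at hn
    have hen : (e : K) ≠ 0 := by
      rintro h0
      apply hn
      rw [h0]; ring
    rw [q1.1, q1.2, q1'.1, q1'.2] at h2
    have hg : g' ^ 2 = g ^ 2 := by
      have : ((e : K) * (θs 2 - θs 0)) ^ 2 * (g' ^ 2 - g ^ 2) = 0 := by linear_combination h2
      exact sub_eq_zero.1 ((mul_eq_zero.1 this).resolve_left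
        (pow_ne_zero 2 (mul_ne_zero hen n2)))
    have r0 := H (2 * 0 + 1) (by omega) (by omega)
    have r1 := H (2 * 1 + 1) (by omega) (by omega)
    rw [podd 0 (by omega), podd' 0 (by omega)] at r0
    rw [podd 1 he, podd' 1 he] at r1
    push_cast at r0 r1
    have hXY : X' * Y' = X * Y := by linear_combination r0
    refine ⟨hg, hXY, ?_⟩
    refine mul_left_cancel₀ n3 ?_
    linear_combination r1 - hXY - (θs 1 - θs 2) ^ 2 * hg
  · rintro ⟨hg, hXY, h3⟩ i hi hid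
    rcases Nat.even_or_odd' i with ⟨j, rfl | rfl⟩
    · rw [(hev j (by omega) (by omega)).1, (hev j (by omega) (by omega)).2,
        (hev' j (by omega) (by omega)).1, (hev' j (by omega) (by omega)).2]
      linear_combination ((j : K) * (e - j + 1) * (θs 2 - θs 0)) ^ 2 * hg
    · rw [podd j (by omega), podd' j (by omega)]
      linear_combination hXY + (j : K) * (θs 1 - θs 0 - j * (θs 2 - θs 0)) * h3
        + ((j : K) * (θs 1 - θs 0 - j * (θs 2 - θs 0))) ^ 2 * hg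

/-- solution of the equations in the case `ϑ_2 = 0` -/
theorem solveB_iff {δ gs : K} (hδ : δ ≠ 0) (hgs : gs ≠ 0) {g X Y g' X' Y' : K} :
    (g' ^ 2 = g ^ 2 ∧ X' * Y' = X * Y ∧
      g' * (X' + Y') + gs * ((Y' - X') / δ) ^ 2 = g * (X + Y) + gs * ((Y - X) / δ) ^ 2) ↔
    ∃ ε x y : K, (ε = 1 ∨ ε = -1) ∧ g' = ε * g ∧ X' = ε * x ∧ Y' = ε * y ∧ x * y = X * Y ∧
      (x + y = X + Y ∨ x + y = -(X + Y) - g * δ ^ 2 / gs) := by
  constructor
  · rintro ⟨h1, h2, h3⟩
    obtain ⟨ε, hε, he⟩ : ∃ ε : K, (ε = 1 ∨ ε = -1) ∧ g' = ε * g := by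
      rcases sq_eq_sq_iff_eq_or_eq_neg.1 h1 with g1 | g1
      · exact ⟨1, Or.inl rfl, by rw [g1]; ring⟩
      · exact ⟨-1, Or.inr rfl, by rw [g1]; ring⟩
    have hε2 : ε * ε = 1 := by rcases hε with rfl | rfl <;> ring
    refine ⟨ε, ε * X', ε * Y', hε, he, by rw [← mul_assoc, hε2, one_mul],
      by rw [← mul_assoc, hε2, one_mul], by linear_combination h2 + X' * Y' * hε2, ?_⟩
    rw [he] at h3
    have h4 : (ε * X' + ε * Y' - (X + Y)) * (ε * X' + ε * Y' - (-(X + Y) - g * δ ^ 2 / gs)) = 0 := by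
      have h5 : δ ^ 2 / gs * ((ε * g) * (X' + Y') + gs * ((Y' - X') / δ) ^ 2)
          = δ ^ 2 / gs * (g * (X + Y) + gs * ((Y - X) / δ) ^ 2) := by rw [h3]
      have h6 : ∀ t u : K, δ ^ 2 / gs * (t + gs * (u / δ) ^ 2) = t * δ ^ 2 / gs + u ^ 2 := by
        intro t u
        field_simp
      rw [h6, h6] at h5
      have h7 : (g * δ ^ 2 / gs) * (ε * X' + ε * Y') + (Y' - X') ^ 2
          = (g * δ ^ 2 / gs) * (X + Y) + (Y - X) ^ 2 := by
        linear_combination h5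
      linear_combination h7 + (X' + Y') ^ 2 * hε2 + 4 * h2
    rcases mul_eq_zero.1 h4 with h8 | h8
    · exact Or.inl (sub_eq_zero.1 h8)
    · exact Or.inr (sub_eq_zero.1 h8)
  · rintro ⟨ε, x, y, hε, rfl, rfl, rfl, h1, h2⟩
    have hε2 : ε * ε = 1 := by rcases hε with rfl | rfl <;> ring
    refine ⟨by linear_combination g ^ 2 * hε2, by linear_combination h1 + x * y * hε2, ?_⟩
    have h4 : (x + y - (X + Y)) * (x + y - (-(X + Y) - g * δ ^ 2 / gs)) = 0 := by
      rcases h2 with h2 | h2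
      · rw [h2]; ring
      · rw [h2]; ring
    have h7 : (g * δ ^ 2 / gs) * (x + y) + (y - x) ^ 2
        = (g * δ ^ 2 / gs) * (X + Y) + (Y - X) ^ 2 := by
      linear_combination h4 - 4 * h1
    have h6 : ∀ t u : K, t + gs * (u / δ) ^ 2 = gs / δ ^ 2 * (t * δ ^ 2 / gs + u ^ 2) := by
      intro t u
      field_simp
    rw [h6, h6]
    congr 1
    linear_combination h7 + ((g * δ ^ 2 / gs) * (x + y) + (y - x) ^ 2) * hε2

end Q7.PD
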