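import Pool.Agent.Q7.PD.CaseA

/-!
# Parameter arrays: the equations when `ϑ_2 ≠ 0`
-/

namespace Q7.PD

open Finset

variable {K : Type*} [Field K]

/-- `γ* = θ*_0 - β θ*_1 + θ*_2` -/
def gam (β : K) (x : ℕ → K) : K := x 0 - β * x 1 + x 2

/-- `ρ* = θ*_0² - β θ*_0 θ*_1 + θ*_1² - γ* (θ*_0 + θ*_1)` -/
def rho (β : K) (x : ℕ → K) : K :=
  x 0 ^ 2 - β * (x 0 * x 1) + x 1 ^ 2 - gam β x * (x 0 + x 1)

theorem rho_eq {β : K} {d : ℕ} {x : ℕ → K} (hr : Rec β d x) :
    ∀ k, k + 1 ≤ d → x (k + 1) ^ 2 + x k ^ 2 = β * (x (k + 1) * x k)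
      + gam β x * (x (k + 1) + x k) + rho β x := by
  intro k
  induction k with
  | zero => intro _; simp only [rho]; ring
  | succ k ih =>
    intro hk
    have h1 := ih (by omega)
    have h2 := hr.second k (by omega)
    change _ = gam β x at h2
    rw [show k + 1 + 1 = k + 2 by ring]
    linear_combination h1 + (x (k + 2) - x k) * h2

theorem SeqA.prod {d : ℕ} {θ θs φ ϕ : ℕ → K} {c a b m : K} (h : SeqA d θs c a b m θ φ ϕ)
    (k : ℕ) (hk : k + 1 ≤ d) : φ (k + 1) * ϕ (k + 1) = vt d θs (k + 1) ^ 2 *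
      ((m + (a + b) * θs k) * (m + (a + b) * θs (k + 1))
        + a * b * (θs (k + 1) - θs k) ^ 2) := by
  obtain ⟨q1, q2⟩ := h.2 (k + 1) (by omega) hk
  rw [show k + 1 - 1 = k by omega] at q1 q2
  rw [q1, q2]
  ring

/-- the equations on the scalars for the products to be the same (any `d`) -/
theorem prod_iff {d : ℕ} {θ θs φ ϕ θ' φ' ϕ' : ℕ → K} {c a b m c' a' b' m' : K}
    (h : SeqA d θs c a b m θ φ ϕ) (h' : SeqA d θs c' a' b' m' θ' φ' ϕ')
    (hv : ∀ i, 1 ≤ i → i ≤ d → vt d θs i ≠ 0) :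
    (∀ i, 1 ≤ i → i ≤ d → φ' i * ϕ' i = φ i * ϕ i) ↔
    ∀ k, k + 1 ≤ d → (m' + (a' + b') * θs k) * (m' + (a' + b') * θs (k + 1))
        + a' * b' * (θs (k + 1) - θs k) ^ 2 = (m + (a + b) * θs k) * (m + (a + b) * θs (k + 1))
        + a * b * (θs (k + 1) - θs k) ^ 2 := by
  constructor
  · intro H k hk
    have := H (k + 1) (by omega) hk
    rw [h.prod k hk, h'.prod k hk] at this
    exact mul_left_cancel₀ (pow_ne_zero 2 (hv (k + 1) (by omega) hk)) this
  · intro H i hi hid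
    obtain ⟨k, rfl⟩ : ∃ k, i = k + 1 := ⟨i - 1, by omega⟩
    rw [h.prod k hid, h'.prod k hid, H k hid]

/-- `d ≥ 3`: the equations reduce to three -/
theorem three_iff {β : K} {d : ℕ} {θs : ℕ → K} {a b m a' b' m' : K} (hd : 3 ≤ d)
    (hr : Rec β d θs) (hds : ∀ i ≤ d, ∀ j ≤ d, i ≠ j → θs i ≠ θs j) :
    (∀ k, k + 1 ≤ d → (m' + (a' + b') * θs k) * (m' + (a' + b') * θs (k + 1))
        + a' * b' * (θs (k + 1) - θs k) ^ 2 = (m + (a + b) * θs k) * (m + (a + b) * θs (k + 1))
        + a * b * (θs (k + 1) - θs k) ^ 2) ↔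
    m' ^ 2 + rho β θs * (a' * b') = m ^ 2 + rho β θs * (a * b) ∧
    m' * (a' + b') + gam β θs * (a' * b') = m * (a + b) + gam β θs * (a * b) ∧
    (a' + b') ^ 2 + (β - 2) * (a' * b') = (a + b) ^ 2 + (β - 2) * (a * b) := by
  have hq := rho_eq hr
  constructor
  · intro H
    set A := m' ^ 2 + rho β θs * (a' * b') - (m ^ 2 + rho β θs * (a * b)) with hA
    set B := m' * (a' + b') + gam β θs * (a' * b') - (m * (a + b) + gam β θs * (a * b)) with hB
    set C := (a' + b') ^ 2 + (β - 2) * (a' * b') - ((a + b) ^ 2 + (β - 2) * (a * b)) with hC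
    have key : ∀ k, k + 1 ≤ d → A + B * (θs (k + 1) + θs k) + C * (θs (k + 1) * θs k) = 0 := by
      intro k hk
      have h1 := H k hk
      have h2 := hq k hk
      rw [hA, hB, hC]
      linear_combination h1 + (a * b - a' * b') * h2
    have k0 := key 0 (by omega)
    have k1 := key 1 (by omega)
    have k2 := key 2 (by omega)
    rw [show 0 + 1 = 1 from rfl] at k0
    rw [show 1 + 1 = 2 from rfl] at k1
    rw [show 2 + 1 = 3 from rfl] at k2
    have e1 : B + C * θs 1 = 0 := by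
      have : (θs 2 - θs 0) * (B + C * θs 1) = 0 := by linear_combination k1 - k0
      exact (mul_eq_zero.1 this).resolve_left
        (sub_ne_zero.2 (hds _ (by omega) _ (by omega) (by omega)))
    have e2 : B + C * θs 2 = 0 := by
      have : (θs 3 - θs 1) * (B + C * θs 2) = 0 := by linear_combination k2 - k1
      exact (mul_eq_zero.1 this).resolve_left
        (sub_ne_zero.2 (hds _ (by omega) _ (by omega) (by omega)))
    have eC : C = 0 := by
      have : (θs 2 - θs 1) * C = 0 := by linear_combination e2 - e1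
      exact (mul_eq_zero.1 this).resolve_left
        (sub_ne_zero.2 (hds _ (by omega) _ (by omega) (by omega)))
    have eB : B = 0 := by rw [eC] at e1; linear_combination e1
    have eA : A = 0 := by rw [eC, eB] at k0; linear_combination k0
    exact ⟨sub_eq_zero.1 eA, sub_eq_zero.1 eB, sub_eq_zero.1 eC⟩
  · rintro ⟨h1, h2, h3⟩ k hk
    have h4 := hq k hk
    linear_combination h1 + (θs (k + 1) + θs k) * h2 + θs (k + 1) * θs k * h3
      + (a' * b' - a * b) * h4

/-- solution of the three equations -/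
theorem solve_iff {β γ ρ : K} {a b m a' b' m' : K} :
    (m' ^ 2 + ρ * (a' * b') = m ^ 2 + ρ * (a * b) ∧
    m' * (a' + b') + γ * (a' * b') = m * (a + b) + γ * (a * b) ∧
    (a' + b') ^ 2 + (β - 2) * (a' * b') = (a + b) ^ 2 + (β - 2) * (a * b)) ↔
    (∃ ε : K, (ε = 1 ∨ ε = -1) ∧ m' = ε * m ∧
      ((a' = ε * a ∧ b' = ε * b) ∨ (a' = ε * b ∧ b' = ε * a))) ∨
    ∃ Δ : K, Δ ≠ 0 ∧ (γ ^ 2 - (β - 2) * ρ) * Δ
        = 2 * γ * m * (a + b) - ρ * (a + b) ^ 2 - (β - 2) * m ^ 2 ∧
      a' * b' = a * b + Δ ∧ (a' + b') ^ 2 = (a + b) ^ 2 - (β - 2) * Δ ∧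
      m' ^ 2 = m ^ 2 - ρ * Δ ∧ m' * (a' + b') = m * (a + b) - γ * Δ := by
  constructor
  · rintro ⟨h1, h2, h3⟩
    by_cases hΔ : a' * b' = a * b
    · left
      rw [hΔ] at h1 h2 h3
      have f1 : m' ^ 2 = m ^ 2 := by linear_combination h1
      have f2 : m' * (a' + b') = m * (a + b) := by linear_combination h2
      have f3 : (a' + b') ^ 2 = (a + b) ^ 2 := by linear_combination h3
      obtain ⟨ε, hε, e1, e2⟩ : ∃ ε : K, (ε = 1 ∨ ε = -1) ∧ m' = ε * m ∧
          a' + b' = ε * (a + b) := by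
        rcases sq_eq_sq_iff_eq_or_eq_neg.1 f1 with g | g
        · by_cases hm : m = 0
          · rcases sq_eq_sq_iff_eq_or_eq_neg.1 f3 with g3 | g3
            · exact ⟨1, Or.inl rfl, by rw [g, hm]; ring, by rw [g3]; ring⟩
            · exact ⟨-1, Or.inr rfl, by rw [g, hm]; ring, by rw [g3]; ring⟩
          · refine ⟨1, Or.inl rfl, by rw [g]; ring, ?_⟩
            rw [g] at f2
            rw [one_mul]
            exact mul_left_cancel₀ hm f2
        · by_cases hm : m = 0
          · rcases sq_eq_sq_iff_eq_or_eq_neg.1 f3 with g3 | g3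
            · exact ⟨1, Or.inl rfl, by rw [g, hm]; ring, by rw [g3]; ring⟩
            · exact ⟨-1, Or.inr rfl, by rw [g, hm]; ring, by rw [g3]; ring⟩
          · refine ⟨-1, Or.inr rfl, by rw [g]; ring, ?_⟩
            rw [g] at f2
            refine mul_left_cancel₀ hm ?_
            linear_combination -f2
      refine ⟨ε, hε, e1, ?_⟩
      have hε2 : ε * ε = 1 := by rcases hε with rfl | rfl <;> ring
      have hf : (a' - ε * a) * (a' - ε * b) = 0 := by
        linear_combination -hΔ + a' * e2 + a * b * hε2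
      rcases mul_eq_zero.1 hf with g | g
      · left
        have ha : a' = ε * a := sub_eq_zero.1 g
        exact ⟨ha, by linear_combination e2 - g⟩
      · right
        have ha : a' = ε * b := sub_eq_zero.1 g
        exact ⟨ha, by linear_combination e2 - g⟩
    · right
      have hne : a' * b' - a * b ≠ 0 := sub_ne_zero.2 hΔ
      refine ⟨a' * b' - a * b, hne, ?_, by ring, by linear_combination h3,
        by linear_combination h1, by linear_combination h2⟩
      refine mul_left_cancel₀ hne ?_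
      set Δ := a' * b' - a * b with hd
      have g1 : m' ^ 2 = m ^ 2 - ρ * Δ := by rw [hd]; linear_combination h1
      have g2 : m' * (a' + b') = m * (a + b) - γ * Δ := by rw [hd]; linear_combination h2
      have g3 : (a' + b') ^ 2 = (a + b) ^ 2 - (β - 2) * Δ := by rw [hd]; linear_combination h3
      have g4 : (m * (a + b) - γ * Δ) ^ 2
          = (m ^ 2 - ρ * Δ) * ((a + b) ^ 2 - (β - 2) * Δ) := by
        rw [← g1, ← g2, ← g3]; ring
      linear_combination g4
  · rintro (⟨ε, hε, rfl, ⟨rfl, rfl⟩ | ⟨rfl, rfl⟩⟩ | ⟨Δ, -, -, h1, h2, h3, h4⟩)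
    · have hε2 : ε * ε = 1 := by rcases hε with rfl | rfl <;> ring
      refine ⟨?_, ?_, ?_⟩
      · linear_combination (m ^ 2 + ρ * (a * b)) * hε2
      · linear_combination (m * (a + b) + γ * (a * b)) * hε2
      · linear_combination ((a + b) ^ 2 + (β - 2) * (a * b)) * hε2
    · have hε2 : ε * ε = 1 := by rcases hε with rfl | rfl <;> ring
      refine ⟨?_, ?_, ?_⟩
      · linear_combination (m ^ 2 + ρ * (a * b)) * hε2
      · linear_combination (m * (a + b) + γ * (a * b)) * hε2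
      · linear_combination ((a + b) ^ 2 + (β - 2) * (a * b)) * hε2
    · refine ⟨?_, ?_, ?_⟩
      · rw [h1, h3]; ring
      · rw [h1, h4]; ring
      · rw [h1, h2]; ring

/-- `d = 2` -/
theorem two_iff {θs : ℕ → K} {a b m a' b' m' : K}
    (hds : ∀ i ≤ 2, ∀ j ≤ 2, i ≠ j → θs i ≠ θs j) :
    (∀ k, k + 1 ≤ 2 → (m' + (a' + b') * θs k) * (m' + (a' + b') * θs (k + 1))
        + a' * b' * (θs (k + 1) - θs k) ^ 2 = (m + (a + b) * θs k) * (m + (a + b) * θs (k + 1))
        + a * b * (θs (k + 1) - θs k) ^ 2) ↔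
    ∃ u u' : K, u = m + (a + b) * θs 1 ∧ u' = m' + (a' + b') * θs 1 ∧
      u' * (u' * (2 * θs 1 - θs 0 - θs 2) + (a' + b') * ((θs 1 - θs 0) * (θs 2 - θs 1)))
        = u * (u * (2 * θs 1 - θs 0 - θs 2) + (a + b) * ((θs 1 - θs 0) * (θs 2 - θs 1))) ∧
      a' * b' = a * b + (u ^ 2 - u' ^ 2) / (θs 1 - θs 0) ^ 2
        - (u * (a + b) - u' * (a' + b')) / (θs 1 - θs 0) := by
  have n1 : θs 1 - θs 0 ≠ 0 := sub_ne_zero.2 (hds 1 (by omega) 0 (by omega) (by omega))
  have n2 : θs 2 - θs 1 ≠ 0 := sub_ne_zero.2 (hds 2 (by omega) 1 (by omega) (by omega))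
  have n3 : θs 2 - θs 0 ≠ 0 := sub_ne_zero.2 (hds 2 (by omega) 0 (by omega) (by omega))
  have hdiv : ∀ u u' : K, (a' * b' = a * b + (u ^ 2 - u' ^ 2) / (θs 1 - θs 0) ^ 2
        - (u * (a + b) - u' * (a' + b')) / (θs 1 - θs 0)) ↔
      a' * b' * (θs 1 - θs 0) ^ 2 = a * b * (θs 1 - θs 0) ^ 2 + (u ^ 2 - u' ^ 2)
        - (u * (a + b) - u' * (a' + b')) * (θs 1 - θs 0) := by
    intro u u'
    constructor
    · intro h
      rw [h]
      field_simp
    · intro h
      field_simp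
      linear_combination h
  constructor
  · intro H
    have k0 := H 0 (by omega)
    have k1 := H 1 (by omega)
    rw [show 0 + 1 = 1 from rfl] at k0
    rw [show 1 + 1 = 2 from rfl] at k1
    refine ⟨_, _, rfl, rfl, ?_, ?_⟩
    · refine mul_left_cancel₀ n3 ?_
      linear_combination (-(θs 2 - θs 1) ^ 2) * k0 + (θs 1 - θs 0) ^ 2 * k1
    · rw [hdiv]
      linear_combination k0
  · rintro ⟨u, u', hu, hu', h1, h2⟩ k hk
    rw [hdiv] at h2
    have k0 : (m' + (a' + b') * θs 0) * (m' + (a' + b') * θs 1)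
        + a' * b' * (θs 1 - θs 0) ^ 2 = (m + (a + b) * θs 0) * (m + (a + b) * θs 1)
        + a * b * (θs 1 - θs 0) ^ 2 := by
      rw [hu, hu'] at h2
      linear_combination h2
    rcases (show k = 0 ∨ k = 1 by omega) with rfl | rfl
    · exact k0
    · rw [show 1 + 1 = 2 from rfl]
      rw [hu, hu'] at h1
      refine mul_left_cancel₀ (pow_ne_zero 2 n1) ?_
      linear_combination (θs 2 - θs 0) * h1 + ((θs 2 - θs 1) ^ 2) * k0

end Q7.PD
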