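import Pool.Agent.Q7.PD.CaseB

/-!
# Parameter arrays with prescribed `θ*_i` and `φ_i ϕ_i`: the final statements
-/

namespace Q7.PD

open Finset

variable {K : Type*} [Field K]

/-- The parameter arrays asked for: `(θ'_i; θ*_i; φ'_i; ϕ'_i)` is a parameter array of diameter `d`
and `φ'_i ϕ'_i = φ_i ϕ_i` for `1 ≤ i ≤ d`. -/
def Asked (d : ℕ) (θs φ ϕ θ' φ' ϕ' : ℕ → K) : Prop :=
  IsPA d θ' θs φ' ϕ' ∧ ∀ i, 1 ≤ i → i ≤ d → φ' i * ϕ' i = φ i * ϕ i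

/-- `x_0, …, x_d` are mutually distinct. -/
def Distinct (d : ℕ) (x : ℕ → K) : Prop := ∀ i ≤ d, ∀ j ≤ d, i ≠ j → x i ≠ x j

/-- `(a', b', m')` is `±(a, b, m)` or `±(b, a, m)` (the known transformations). -/
def Same (a b m a' b' m' : K) : Prop :=
  ∃ ε : K, (ε = 1 ∨ ε = -1) ∧ m' = ε * m ∧
    ((a' = ε * a ∧ b' = ε * b) ∨ (a' = ε * b ∧ b' = ε * a))

/-- `(a', b', m')` is a further solution, with `a' b' = a b + Δ`, `Δ ≠ 0`. -/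
def Extra (β γ ρ a b m a' b' m' : K) : Prop :=
  ∃ Δ : K, Δ ≠ 0 ∧
    (γ ^ 2 - (β - 2) * ρ) * Δ = 2 * γ * m * (a + b) - ρ * (a + b) ^ 2 - (β - 2) * m ^ 2 ∧
    a' * b' = a * b + Δ ∧ (a' + b') ^ 2 = (a + b) ^ 2 - (β - 2) * Δ ∧
    m' ^ 2 = m ^ 2 - ρ * Δ ∧ m' * (a' + b') = m * (a + b) - γ * Δ

/-- in the nondegenerate case there is at most one further solution up to the known
transformations -/
theorem extra_unique {β γ ρ a b m a₁ b₁ m₁ a₂ b₂ m₂ : K} (h0 : γ ^ 2 ≠ (β - 2) * ρ)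
    (h1 : Extra β γ ρ a b m a₁ b₁ m₁) (h2 : Extra β γ ρ a b m a₂ b₂ m₂) :
    Same a₁ b₁ m₁ a₂ b₂ m₂ := by
  obtain ⟨Δ, hΔ, e0, e1, e2, e3, e4⟩ := h1
  obtain ⟨Δ', hΔ', f0, f1, f2, f3, f4⟩ := h2
  have hD : Δ' = Δ := mul_left_cancel₀ (sub_ne_zero.2 h0) (by rw [e0, f0])
  subst hD
  have key := (solve_iff (β := β) (γ := γ) (ρ := ρ) (a := a₁) (b := b₁) (m := m₁) (a' := a₂)
    (b' := b₂) (m' := m₂)).1 ⟨by rw [e1, e3, f1, f3], by rw [e1, e4, f1, f4],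
      by rw [e1, e2, f1, f2]⟩
  rcases key with h | ⟨Δ'', hne, -, g, -⟩
  · exact h
  · exact absurd (by linear_combination f1 - e1 - g : Δ'' = 0) hne

theorem ne_of_prod {d : ℕ} {φ ϕ φ' ϕ' : ℕ → K} (h : ∀ i, 1 ≤ i → i ≤ d → φ i ≠ 0 ∧ ϕ i ≠ 0)
    (hp : ∀ i, 1 ≤ i → i ≤ d → φ' i * ϕ' i = φ i * ϕ i) :
    ∀ i, 1 ≤ i → i ≤ d → φ' i ≠ 0 ∧ ϕ' i ≠ 0 := by
  intro i hi hid
  have h1 := hp i hi hid
  have h2 : φ' i * ϕ' i ≠ 0 := by rw [h1]; exact mul_ne_zero (h i hi hid).1 (h i hi hid).2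
  exact ⟨left_ne_zero_of_mul h2, right_ne_zero_of_mul h2⟩

theorem zero_case (θs φ ϕ θ' φ' ϕ' : ℕ → K) : Asked 0 θs φ ϕ θ' φ' ϕ' :=
  ⟨⟨fun i hi j hj hij => absurd (by omega) hij, fun i hi j hj hij => absurd (by omega) hij,
    fun i hi hid => by omega, fun i hi hid => by omega, fun i hi hid => by omega,
    ⟨0, fun i hi hid => by omega⟩⟩, fun i hi hid => by omega⟩

theorem one_case {θ θs φ ϕ : ℕ → K} (h : IsPA 1 θ θs φ ϕ) (θ' φ' ϕ' : ℕ → K) :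
    Asked 1 θs φ ϕ θ' φ' ϕ' ↔ ∃ x : K, x ≠ 0 ∧ x ^ 2 ≠ φ 1 * ϕ 1 ∧ φ' 1 = x ∧
      ϕ' 1 = φ 1 * ϕ 1 / x ∧ θ' 1 = θ' 0 - (x - φ 1 * ϕ 1 / x) / (θs 1 - θs 0) := by
  have n1 : θs 1 - θs 0 ≠ 0 := sub_ne_zero.2 (h.dists 1 le_rfl 0 (by omega) (by omega))
  obtain ⟨hφ, hϕ⟩ := h.ne 1 le_rfl le_rfl
  constructor
  · rintro ⟨hA, hp⟩
    obtain ⟨hφ', hϕ'⟩ := hA.ne 1 le_rfl le_rfl
    have hD := hA.sub_ne le_rfl
    have p3 := hA.pa3 1 le_rfl le_rfl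
    change φ' 1 = ϕ' 1 * vt 1 θ' 1 + _ at p3
    rw [vt_one hD, show 1 - 1 = 0 from rfl] at p3
    have hp1 := hp 1 le_rfl le_rfl
    have e1 : ϕ' 1 = φ 1 * ϕ 1 / φ' 1 := by rw [eq_div_iff hφ', ← hp1]; ring
    refine ⟨φ' 1, hφ', ?_, rfl, e1, ?_⟩
    · rw [← hp1]
      intro h0
      have : φ' 1 = ϕ' 1 := mul_left_cancel₀ hφ' (by linear_combination h0)
      rw [this] at p3
      have h3 : (θs 1 - θs 0) * (θ' 0 - θ' 1) = 0 := by linear_combination -p3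
      exact (mul_ne_zero n1 hD) h3
    · rw [← e1]
      have : (φ' 1 - ϕ' 1) / (θs 1 - θs 0) = θ' 0 - θ' 1 := by
        rw [div_eq_iff n1, p3]; ring
      rw [this]; ring
  · rintro ⟨x, hx, hx2, e1, e2, e3⟩
    have hxx : ϕ' 1 * x = φ 1 * ϕ 1 := by rw [e2, div_mul_cancel₀ _ hx]
    have hϕ' : ϕ' 1 ≠ 0 := by
      intro h0
      rw [h0, zero_mul] at hxx
      exact mul_ne_zero hφ hϕ hxx.symm
    have e4 : θ' 0 - θ' 1 = (x - ϕ' 1) / (θs 1 - θs 0) := by rw [e3, ← e2]; ring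
    have e5 : (θs 1 - θs 0) * (θ' 0 - θ' 1) = x - ϕ' 1 := by
      rw [e4, mul_div_cancel₀ _ n1]
    have hD : θ' 0 - θ' 1 ≠ 0 := by
      intro h0
      rw [h0, mul_zero] at e5
      apply hx2
      rw [← hxx, ← sub_eq_zero.1 e5.symm]
      ring
    refine ⟨⟨?_, ?_, ?_, ?_, ?_, ⟨0, fun i hi hid => by omega⟩⟩, ?_⟩
    · intro i hi j hj hij
      rcases (show i = 0 ∨ i = 1 by omega) with rfl | rfl <;>
        rcases (show j = 0 ∨ j = 1 by omega) with rfl | rfl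
      · exact absurd rfl hij
      · exact sub_ne_zero.1 hD
      · exact (sub_ne_zero.1 hD).symm
      · exact absurd rfl hij
    · exact h.dists
    · intro i hi hid
      obtain rfl : i = 1 := by omega
      rw [e1]
      exact ⟨hx, hϕ'⟩
    · intro i hi hid
      obtain rfl : i = 1 := by omega
      change φ' 1 = ϕ' 1 * vt 1 θ' 1 + _
      rw [vt_one hD, show 1 - 1 = 0 from rfl, e1]
      linear_combination -e5
    · intro i hi hid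
      obtain rfl : i = 1 := by omega
      change ϕ' 1 = φ' 1 * vt 1 θ' 1 + _
      rw [vt_one hD, show 1 - 1 + 1 = 1 from rfl, e1]
      linear_combination e5
    · intro i hi hid
      obtain rfl : i = 1 := by omega
      rw [e1, mul_comm, hxx]

theorem SeqA.vt_ne {d : ℕ} {θ θs φ ϕ : ℕ → K} {c a b m : K} (h : SeqA d θs c a b m θ φ ϕ)
    (hne : ∀ i, 1 ≤ i → i ≤ d → φ i ≠ 0 ∧ ϕ i ≠ 0) (i : ℕ) (hi : 1 ≤ i) (hid : i ≤ d) :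
    vt d θs i ≠ 0 := by
  have := (hne i hi hid).1
  rw [(h.2 i hi hid).1] at this
  exact left_ne_zero_of_mul this

theorem vt_two_two {x : ℕ → K} (h : x 0 - x 2 ≠ 0) : vt 2 x 2 = 1 := by
  have := vt_symm 2 x 1 (by omega)
  rw [show 2 + 1 - 1 = 2 from rfl, vt_one h] at this
  exact this

theorem two_case {θ θs φ ϕ : ℕ → K} (h : IsPA 2 θ θs φ ϕ) {a b m : K} (ha : a = θ 1 - θ 0)
    (hb : b = θ 1 - θ 2) (hm : m = ϕ 1 - a * θs 1 - b * θs 0) :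
    SeqA 2 θs (θ 0 - b) a b m θ φ ϕ ∧ ∀ θ' φ' ϕ' : ℕ → K, Asked 2 θs φ ϕ θ' φ' ϕ' ↔
      Distinct 2 θ' ∧ ∃ c' a' b' m' u u' : K, SeqA 2 θs c' a' b' m' θ' φ' ϕ' ∧
        u = m + (a + b) * θs 1 ∧ u' = m' + (a' + b') * θs 1 ∧
        u' * (u' * (2 * θs 1 - θs 0 - θs 2) + (a' + b') * ((θs 1 - θs 0) * (θs 2 - θs 1)))
          = u * (u * (2 * θs 1 - θs 0 - θs 2) + (a + b) * ((θs 1 - θs 0) * (θs 2 - θs 1))) ∧
        a' * b' = a * b + (u ^ 2 - u' ^ 2) / (θs 1 - θs 0) ^ 2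
          - (u * (a + b) - u' * (a' + b')) / (θs 1 - θs 0) := by
  have hD := h.sub_nes (by omega)
  have hv := vt_two_two hD
  have h2 : vt 2 θs 2 ≠ 0 := by rw [hv]; exact one_ne_zero
  have hrec : ∀ x : ℕ → K, Rec 0 2 x := fun x i hi => by omega
  have hS := h.seqA le_rfl (hrec θs) (hrec θ) h2
  rw [hv, div_one, div_one, show 2 - 1 = 1 from rfl, ← ha, ← hb, ← hm] at hS
  refine ⟨hS, fun θ' φ' ϕ' => ?_⟩
  have hvne := hS.vt_ne h.ne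
  constructor
  · rintro ⟨hA, hp⟩
    have hS' := hA.seqA le_rfl (hrec θs) (hrec θ') h2
    have h3 := (two_iff h.dists).1 ((prod_iff hS hS' hvne).1 hp)
    obtain ⟨u, u', g1, g2, g3, g4⟩ := h3
    exact ⟨hA.dist, _, _, _, _, u, u', hS', g1, g2, g3, g4⟩
  · rintro ⟨hdt, c', a', b', m', u, u', hS', g1, g2, g3, g4⟩
    have hp := (prod_iff hS hS' hvne).2 ((two_iff h.dists).2 ⟨u, u', g1, g2, g3, g4⟩)
    exact ⟨hS'.isPA le_rfl (hrec θs) h2 h.dists hdt (ne_of_prod h.ne hp), hp⟩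

theorem three_case {d : ℕ} {θ θs φ ϕ : ℕ → K} (h : IsPA d θ θs φ ϕ) (hd : 3 ≤ d)
    (h2 : vt d θs 2 ≠ 0) {β a b m : K} (hβ : β = (θs 0 - θs 3) / (θs 1 - θs 2) - 1)
    (ha : a = (θ (d - 1) - θ 0) / vt d θs 2) (hb : b = (θ 1 - θ d) / vt d θs 2)
    (hm : m = ϕ 1 - a * θs 1 - b * θs 0) :
    SeqA d θs (θ 0 - b) a b m θ φ ϕ ∧ ∀ θ' φ' ϕ' : ℕ → K, Asked d θs φ ϕ θ' φ' ϕ' ↔
      Distinct d θ' ∧ ∃ c' a' b' m' : K, SeqA d θs c' a' b' m' θ' φ' ϕ' ∧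
        (Same a b m a' b' m' ∨ Extra β (gam β θs) (rho β θs) a b m a' b' m') := by
  obtain ⟨β', hr', hr⟩ := h.exists_rec
  have hββ : β' = β := by
    have e := hr 0 (by omega)
    rw [zero_add, zero_add, zero_add] at e
    rw [hβ, e, mul_div_cancel_right₀ _
      (sub_ne_zero.2 (h.dists 1 (by omega) 2 (by omega) (by omega)))]
    ring
  subst hββ
  have hS := h.seqA (by omega) hr hr' h2
  rw [← ha, ← hb, ← hm] at hS
  refine ⟨hS, fun θ' φ' ϕ' => ?_⟩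
  have hvne := hS.vt_ne h.ne
  constructor
  · rintro ⟨hA, hp⟩
    have hS' := hA.seqA (by omega) hr (hA.rec_of hd hr) h2
    exact ⟨hA.dist, _, _, _, _, hS',
      solve_iff.1 ((three_iff hd hr h.dists).1 ((prod_iff hS hS' hvne).1 hp))⟩
  · rintro ⟨hdt, c', a', b', m', hS', hsol⟩
    have hp := (prod_iff hS hS' hvne).2 ((three_iff hd hr h.dists).2 (solve_iff.2 hsol))
    exact ⟨hS'.isPA (by omega) hr h2 h.dists hdt (ne_of_prod h.ne hp), hp⟩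

theorem odd_case {d : ℕ} {θ θs φ ϕ : ℕ → K} (h : IsPA d θ θs φ ϕ) (hd : 3 ≤ d)
    (h2 : vt d θs 2 = 0) : ∃ e, 1 ≤ e ∧ d = 2 * e + 1 ∧
      SeqB e θs (θ 0) (θ 2 - θ 0) (ϕ 1) (φ 1) θ φ ϕ ∧ ∀ θ' φ' ϕ' : ℕ → K,
      Asked d θs φ ϕ θ' φ' ϕ' ↔ Distinct d θ' ∧ ∃ c' ε x y : K, (ε = 1 ∨ ε = -1) ∧
        SeqB e θs c' (ε * (θ 2 - θ 0)) (ε * x) (ε * y) θ' φ' ϕ' ∧ x * y = ϕ 1 * φ 1 ∧
        (x + y = ϕ 1 + φ 1 ∨
          x + y = -(ϕ 1 + φ 1) - (θ 2 - θ 0) * (θs 1 - θs 0) ^ 2 / (θs 2 - θs 0)) := by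
  obtain ⟨β, hr', hr⟩ := h.exists_rec
  obtain ⟨e, he, rfl⟩ := odd_of hd hr h.dists h2
  obtain rfl := beta_eq hd hr h.dists h2
  have hS := h.seqB he hr hr'
  have n1 : θs 1 - θs 0 ≠ 0 :=
    sub_ne_zero.2 (h.dists 1 (by omega) 0 (by omega) (by omega))
  have n2 : θs 2 - θs 0 ≠ 0 :=
    sub_ne_zero.2 (h.dists 2 (by omega) 0 (by omega) (by omega))
  refine ⟨e, he, rfl, hS, fun θ' φ' ϕ' => ?_⟩
  constructor
  · rintro ⟨hA, hp⟩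
    have hS' := hA.seqB he hr (hA.rec_of hd hr)
    obtain ⟨ε, x, y, g1, g2, g3, g4, g5, g6⟩ :=
      (solveB_iff n1 n2).1 ((prodB_iff he hS hS' h.dists h.ne).1 hp)
    rw [g2, g3, g4] at hS'
    exact ⟨hA.dist, _, ε, x, y, g1, hS', g5, g6⟩
  · rintro ⟨hdt, c', ε, x, y, g1, hS', g5, g6⟩
    have hp := (prodB_iff he hS hS' h.dists h.ne).2
      ((solveB_iff n1 n2).2 ⟨ε, x, y, g1, rfl, rfl, rfl, g5, g6⟩)
    exact ⟨hS'.isPA he hr h.dists hdt (ne_of_prod h.ne hp), hp⟩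

end Q7.PD
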